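import Pool.Agent.U41.OD.Stm0

/-!
# Project OD, package NW: Newton's method for critical points
-/

set_option autoImplicit false

namespace Pool.Agent.U41.OD

open MvPolynomial

theorem nw_lin_mem {O σ : Type} [CommRing O] [Fintype σ] (I : Ideal O) (a b : σ → O)
    (hb : ∀ l, b l ∈ I) (P : MvPolynomial σ O) : ∑ m, b m * eval a (pderiv m P) ∈ I :=
  Ideal.sum_mem _ fun m _ => I.mul_mem_right _ (hb m)

theorem nw_taylor {O σ : Type} [CommRing O] [Fintype σ] (I : Ideal O) (a b : σ → O)
    (hb : ∀ l, b l ∈ I) (P : MvPolynomial σ O) :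
    eval (a + b) P - eval a P - ∑ m, b m * eval a (pderiv m P) ∈ I * I := by
  classical
  induction P using MvPolynomial.induction_on with
  | C c => simp
  | add p q hp hq =>
    have h : eval (a + b) (p + q) - eval a (p + q) - ∑ m, b m * eval a (pderiv m (p + q)) =
        (eval (a + b) p - eval a p - ∑ m, b m * eval a (pderiv m p)) +
        (eval (a + b) q - eval a q - ∑ m, b m * eval a (pderiv m q)) := by
      simp only [map_add, mul_add, Finset.sum_add_distrib]
      ring
    rw [h]
    exact Ideal.add_mem _ hp hq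
  | mul_X p n hp =>
    have h1 : ∑ m, b m * eval a (pderiv m (p * X n)) =
        a n * ∑ m, b m * eval a (pderiv m p) + b n * eval a p := by
      have h2 : ∀ m, b m * eval a (pderiv m (p * X n)) =
          a n * (b m * eval a (pderiv m p)) + (if m = n then b n * eval a p else 0) := by
        intro m
        rw [Derivation.leibniz, pderiv_X]
        simp only [smul_eq_mul, map_add, map_mul, eval_X]
        by_cases hmn : m = n
        · subst hmn
          simp
          ring
        · rw [if_neg hmn, Pi.single_eq_of_ne (Ne.symm hmn)]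
          simp
          ring
      rw [Finset.sum_congr rfl fun m _ => h2 m, Finset.sum_add_distrib, ← Finset.mul_sum]
      simp
    have h3 : eval (a + b) (p * X n) - eval a (p * X n) - ∑ m, b m * eval a (pderiv m (p * X n)) =
        a n * (eval (a + b) p - eval a p - ∑ m, b m * eval a (pderiv m p)) +
        b n * (eval (a + b) p - eval a p) := by
      rw [h1]
      simp only [map_mul, eval_X, Pi.add_apply]
      ring
    rw [h3]
    refine Ideal.add_mem _ (Ideal.mul_mem_left _ _ hp) (Ideal.mul_mem_mul (hb n) ?_)
    have h4 : eval (a + b) p - eval a p =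
        (eval (a + b) p - eval a p - ∑ m, b m * eval a (pderiv m p)) +
          ∑ m, b m * eval a (pderiv m p) := by ring
    rw [h4]
    exact Ideal.add_mem _ (Ideal.mul_le_right hp) (nw_lin_mem I a b hb p)

theorem nw_congr {O σ : Type} [CommRing O] [Fintype σ] (I : Ideal O) (a a' : σ → O)
    (h : ∀ l, a' l - a l ∈ I) (P : MvPolynomial σ O) : eval a' P - eval a P ∈ I := by
  have h1 := nw_taylor I a (a' - a) (fun l => h l) P
  have h2 : a + (a' - a) = a' := by ring
  rw [h2] at h1
  have h4 : eval a' P - eval a P =
      (eval a' P - eval a P - ∑ m, (a' - a) m * eval a (pderiv m P)) +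
        ∑ m, (a' - a) m * eval a (pderiv m P) := by ring
  rw [h4]
  exact Ideal.add_mem _ (Ideal.mul_le_right h1) (nw_lin_mem I a (a' - a) (fun l => h l) P)

theorem NW_ok : S_NW := by
  intro O σ _ _ _ g 𝔭 a₀ hmax hcrit hdet r hr
  induction r, hr using Nat.le_induction with
  | base => exact ⟨a₀, fun l => by simp, fun j => by simpa using hcrit j⟩
  | succ r hr ih =>
    obtain ⟨a, ha, hv⟩ := ih
    -- the value of the Hessian at `a`
    set H : Matrix σ σ O := (eval a).mapMatrix (hess g) with hH
    have hHdet : H.det ∉ 𝔭 := by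
      intro hmem
      apply hdet
      have h1 : eval a (hess g).det = H.det := by
        rw [hH, RingHom.map_det]
      have h2 := nw_congr 𝔭 a₀ a ha (hess g).det
      rw [h1] at h2
      have h3 : eval a₀ (hess g).det = H.det - (H.det - eval a₀ (hess g).det) := by ring
      rw [h3]
      exact Ideal.sub_mem _ hmem h2
    have htop : 𝔭 ⊔ Ideal.span {H.det} = ⊤ := by
      refine hmax.1.2 _ (lt_of_le_of_ne le_sup_left ?_)
      intro heq
      apply hHdet
      rw [heq]
      exact Ideal.mem_sup_right (Ideal.mem_span_singleton_self _)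
    have htop' : 𝔭 ^ r ⊔ Ideal.span {H.det} = ⊤ := Ideal.pow_sup_eq_top htop
    obtain ⟨y, hy, z, hz, hyz⟩ := Submodule.mem_sup.1
      (show (1 : O) ∈ 𝔭 ^ r ⊔ Ideal.span {H.det} by rw [htop']; exact Submodule.mem_top)
    obtain ⟨e, rfl⟩ := Ideal.mem_span_singleton'.1 hz
    set v : σ → O := fun j => eval a (pderiv j g) with hvdef
    set b : σ → O := - (e • (Matrix.vecMul v H.adjugate)) with hb
    have hbmem : ∀ l, b l ∈ 𝔭 ^ r := by
      intro l
      rw [hb]
      simp only [Pi.neg_apply, Pi.smul_apply, smul_eq_mul]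
      refine neg_mem (Ideal.mul_mem_left _ _ ?_)
      unfold Matrix.vecMul dotProduct
      exact Ideal.sum_mem _ fun j _ => Ideal.mul_mem_right _ _ (hv j)
    have hbH : Matrix.vecMul b H = fun j => - (e * H.det * v j) := by
      rw [hb, Matrix.neg_vecMul, Matrix.smul_vecMul, Matrix.vecMul_vecMul, Matrix.adjugate_mul]
      funext j
      simp only [Pi.neg_apply, Pi.smul_apply, smul_eq_mul, Matrix.vecMul_smul, Matrix.vecMul_one]
      ring
    refine ⟨a + b, fun l => ?_, fun j => ?_⟩
    · have h1 : (a + b) l - a₀ l = (a l - a₀ l) + b l := by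
        simp only [Pi.add_apply]; ring
      rw [h1]
      exact Ideal.add_mem _ (ha l) (Ideal.pow_le_self (by omega) (hbmem l))
    · have h1 := nw_taylor (𝔭 ^ r) a b hbmem (pderiv j g)
      have h2 : ∑ m, b m * eval a (pderiv m (pderiv j g)) = - (e * H.det * v j) := by
        have h3 := congrFun hbH j
        rw [← h3]
        rfl
      rw [h2] at h1
      have h4 : eval (a + b) (pderiv j g) =
          (eval (a + b) (pderiv j g) - eval a (pderiv j g) - -(e * H.det * v j)) + y * v j := by
        have h5 : v j = eval a (pderiv j g) := rfl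
        have h6 : y = 1 - e * H.det := by rw [← hyz]; ring
        rw [h6, ← h5]
        ring
      rw [h4]
      have hle : 𝔭 ^ r * 𝔭 ^ r ≤ 𝔭 ^ (r + 1) := by
        rw [← pow_add]
        exact Ideal.pow_le_pow_right (by omega)
      exact Ideal.add_mem _ (hle h1) (hle (Ideal.mul_mem_mul hy (hv j)))

end Pool.Agent.U41.OD
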